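import Pool.Agent.Q60.D3G.StmA
import Pool.Agent.W547.LD.WeilVar

/-! Project D3G (helper60), JOB H4 CKO: the determinant form of a half system. -/

set_option autoImplicit false

namespace Pool.Agent.Q174.D3G

open NumberField Module Pool.Agent.H204R3.CM
open Pool.Agent.W547.KB (CMPair CMAV cc IsHalf Wt St mono monoAlt mono_eq_det ev single)
open Pool.Agent.W547.LD (IsImag fld stab emb pairOf prodOf typ mem_typ conj_emb mem_fld mulBy
  isHom_mulBy mulBy_mulBy mono_scale finrank_prodOf Orb)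
open Pool.Agent.W547.LD.Comb (OrbT eps psum)
open Pool.Agent.Q60.D3 (AV HasWeight)
open Pool.Agent.Q60.D3G (av)
open Pool.Agent.Q180.WT (KO)

theorem zpow_sum0 {n : ℕ} (w : Fin n → ℤ) {z : ℂ} (h : z ≠ 0) :
    z ^ (∑ b, w b) = ∏ b, z ^ w b := by
  classical
  have key : ∀ s : Finset (Fin n), z ^ (∑ b ∈ s, w b) = ∏ b ∈ s, z ^ w b := by
    intro s
    induction s using Finset.induction_on with
    | empty => simp
    | insert a s ha ih => rw [Finset.sum_insert ha, Finset.prod_insert ha, zpow_add₀ h, ih]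
  exact key Finset.univ

/-- The determinant of real linear functions which are multiplied by `z` or `z⁻¹`. -/
theorem det_weight {T : Type} [AddCommGroup T] [Module ℂ T] {n : ℕ} (c : Fin n → (T →ₗ[ℝ] ℂ))
    (w : Fin n → ℤ) (hc : ∀ b (z : ℂ), ‖z‖ = 1 → ∀ u : T, c b (z • u) = z ^ (w b) * c b u) :
    ∃ ψ : MultilinearMap ℝ (fun _ : Fin n => T) ℂ,
      (∀ u, ψ u = (Matrix.of fun a b : Fin n => c b (u a)).det) ∧
      ∀ z : ℂ, ‖z‖ = 1 → ∀ u : Fin n → T, ψ (fun l => z • u l) = z ^ (∑ b, w b) * ψ u := by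
  classical
  let ψ : MultilinearMap ℝ (fun _ : Fin n => T) ℂ :=
    ((Matrix.detRowAlternating (n := Fin n) (R := ℂ)).toMultilinearMap.restrictScalars
      ℝ).compLinearMap (fun _ => LinearMap.pi c)
  have hψ : ∀ u, ψ u = (Matrix.of fun a b : Fin n => c b (u a)).det := fun u => rfl
  refine ⟨ψ, hψ, fun z hz u => ?_⟩
  rw [hψ, hψ]
  have h0 : z ≠ 0 := by
    intro h
    rw [h, norm_zero] at hz
    exact zero_ne_one hz
  have h1 : (Matrix.of fun a b : Fin n => c b (z • u a)) =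
      Matrix.of fun a b : Fin n => z ^ (w b) * (Matrix.of fun a b : Fin n => c b (u a)) a b := by
    ext a b
    exact hc b z hz (u a)
  rw [h1, Matrix.det_mul_row, zpow_sum0 w h0]

variable {L : Type} [Field L] [NumberField L] [IsCMField L] [IsGalois ℚ L]

/-- The coordinate of a weight on the tangent space. -/
theorem exists_coord (j : L →+* ℂ) {S : Set (L ≃ₐ[ℚ] L)} (hS : IsHalf S) (τ : L ≃ₐ[ℚ] L) (w : ℤ)
    (hw : (τ ∈ S ∧ w = 1) ∨ (τ ∉ S ∧ w = -1)) :
    ∃ c : (single (pairOf j S hS)).Tan →ₗ[ℝ] ℂ,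
      (∀ v : (single (pairOf j S hS)).H1,
        c ((single (pairOf j S hS)).per v) = j (emb S τ (show fld S from v ()))) ∧
      ∀ z : ℂ, ‖z‖ = 1 → ∀ u : (single (pairOf j S hS)).Tan, c (z • u) = z ^ w * c u := by
  rcases hw with ⟨h, rfl⟩ | ⟨h, rfl⟩
  · let ψ : (pairOf j S hS).Φ := ⟨j.comp (emb S τ), (mem_typ j S τ).2 h⟩
    refine ⟨⟨⟨fun u => u () ψ, fun u u' => rfl⟩, fun a u => rfl⟩, fun v => rfl,
      fun z _ u => ?_⟩
    rw [zpow_one]
    rfl
  · have h1 : j.comp (emb S (cc L * τ)) ∈ typ j S := by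
      rw [mem_typ]
      have h2 := hS τ
      tauto
    let ψ : (pairOf j S hS).Φ := ⟨j.comp (emb S (cc L * τ)), h1⟩
    refine ⟨⟨⟨fun u => starRingEnd ℂ (u () ψ), fun u u' => ?_⟩, fun a u => ?_⟩, fun v => ?_,
      fun z hz u => ?_⟩
    · exact map_add (starRingEnd ℂ) (u () ψ) (u' () ψ)
    · change starRingEnd ℂ ((a : ℂ) * u () ψ) = (a : ℂ) * starRingEnd ℂ (u () ψ)
      rw [map_mul, Complex.conj_ofReal]
    · change starRingEnd ℂ (j (cc L (τ (show fld S from v ())))) =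
        j (τ (show fld S from v ()))
      rw [Pool.Agent.W547.KB.emb_cc, Complex.conj_conj]
    · change starRingEnd ℂ (z * u () ψ) = z ^ (-1 : ℤ) * starRingEnd ℂ (u () ψ)
      rw [map_mul, zpow_neg_one]
      congr 1
      have hz0 : z ≠ 0 := by
        intro h
        rw [h, norm_zero] at hz
        exact zero_ne_one hz
      refine eq_inv_of_mul_eq_one_left ?_
      rw [mul_comm, Complex.mul_conj, Complex.normSq_eq_norm_sq, hz]
      norm_num

theorem cko : Pool.Agent.Q60.D3G.S_cko := by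
  intro L _ _ _ _ j N hN δ d hd hsq hfix S hS hst n e
  classical
  have hδ : δ ∈ fld S := (mem_fld S δ).2 fun τ hτ => hfix τ (hst hτ)
  let x : Unit → Set (L ≃ₐ[ℚ] L) := fun _ => S
  let hx : ∀ q : Unit, IsHalf (x q) := fun _ => hS
  let I : Fin n → Wt (single (pairOf j S hS)) L := fun b => ⟨(), emb S (e b).2.choose⟩
  let F : ((single (pairOf j S hS)).H1) [⋀^Fin n]→ₗ[ℚ] ℂ :=
    (j.toRatAlgHom.toLinearMap).compAlternatingMap (monoAlt I)
  have hFm : ∀ v, F v = j (mono I v) := fun v => rfl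
  have hF : ∀ v : Fin n → (single (pairOf j S hS)).H1, F v =
      (Matrix.of fun a b : Fin n => j (emb S (e b).2.choose (show fld S from v a ()))).det := by
    intro v
    rw [hFm, mono_eq_det, RingHom.map_det]
    rfl
  let w : Fin n → ℤ := fun b => if (1 : L ≃ₐ[ℚ] L) ∈ (e b).1 then 1 else -1
  have hmem : ∀ b, (1 : L ≃ₐ[ℚ] L) ∈ (e b).1 ↔ (e b).2.choose ∈ S := by
    intro b
    have h1 := (e b).2.choose_spec.2
    conv_lhs => rw [← h1]
    rw [Pool.Agent.W547.LD.Comb.mem_tr, one_mul]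
  have hcoord : ∀ b : Fin n, ∃ c : (single (pairOf j S hS)).Tan →ₗ[ℝ] ℂ,
      (∀ v : (single (pairOf j S hS)).H1,
        c ((single (pairOf j S hS)).per v) = j (emb S (e b).2.choose (show fld S from v ()))) ∧
      ∀ z : ℂ, ‖z‖ = 1 → ∀ u : (single (pairOf j S hS)).Tan, c (z • u) = z ^ (w b) * c u := by
    intro b
    refine exists_coord j hS _ (w b) ?_
    by_cases h : (1 : L ≃ₐ[ℚ] L) ∈ (e b).1
    · exact Or.inl ⟨(hmem b).1 h, if_pos h⟩
    · exact Or.inr ⟨fun h' => h ((hmem b).2 h'), if_neg h⟩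
  choose c hc1 hc2 using hcoord
  obtain ⟨ψ, hψ1, hψ2⟩ := det_weight c w hc2
  have hcard : Nat.card (Orb N x) = n := by
    have e1 : Orb N x ≃ OrbT N S := Equiv.uniqueSigma
      (fun _ : Unit => {S' : Set (L ≃ₐ[ℚ] L) // ∃ τ ∈ N, Pool.Agent.W547.LD.tr τ S = S'})
    rw [Nat.card_congr e1, ← Nat.card_congr e, Nat.card_eq_fintype_card, Fintype.card_fin]
  have hdim : finrank ℂ (av (single (pairOf j S hS))).T = n := by
    have h1 := (av (single (pairOf j S hS))).dim
    have h2 : finrank ℚ (av (single (pairOf j S hS))).H = 2 * Nat.card (Orb N x) :=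
      finrank_prodOf j N x hx hN (fun _ => hst)
    rw [h2, hcard] at h1
    omega
  have heig : ∀ (v : Fin n → (single (pairOf j S hS)).H1) (k : Fin n),
      F (Function.update v k (mulBy j x hx δ (fun _ => hδ) (v k))) = j δ * F v := by
    intro v k
    have h1 := mono_scale I (mulBy j x hx δ (fun _ => hδ)) δ (fun u b => by
      have h2 : ev (mulBy j x hx δ (fun _ => hδ) u) (I b) =
          (e b).2.choose δ * ev u (I b) :=
        map_mul (I b).2 (⟨δ, hδ⟩ : fld S) (u ())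
      rw [h2, hfix _ (e b).2.choose_spec.1]) v k
    rw [hFm, hFm, h1, map_mul]
  have hval : ∀ v : Fin n → (single (pairOf j S hS)).H1,
      ψ (fun l => (single (pairOf j S hS)).per (v l)) = F v := by
    intro v
    rw [hψ1, hF]
    congr 1
    ext a b
    exact hc1 b (v a)
  have hs1 : n = 1 → (∑ b, w b) = 1 ∨ (∑ b, w b) = -1 := by
    intro h
    subst h
    rw [Fin.sum_univ_one]
    by_cases h1 : (1 : L ≃ₐ[ℚ] L) ∈ (e 0).1
    · exact Or.inl (if_pos h1)
    · exact Or.inr (if_neg h1)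
  let K : KO (av (single (pairOf j S hS))) n :=
    { dimA := hdim
      φ := mulBy j x hx δ (fun _ => hδ)
      hφ := isHom_mulBy j x hx δ (fun _ => hδ)
      d := d
      hd := hd
      sq := mulBy_mulBy j x hx δ (fun _ => hδ) d hsq
      δ := F
      μ := j δ
      hμ := by rw [← map_mul, hsq, map_neg, map_natCast]
      eig := heig
      s := ∑ b, w b
      hs := hs1
      wt := ⟨ψ, hval, hψ2⟩ }
  refine ⟨K, rfl, rfl, ?_, hF⟩
  change ((∑ b, w b : ℤ) : ℚ) = ∑ T : OrbT N S, eps T.1 1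
  rw [← Equiv.sum_comp e]
  push_cast
  refine Finset.sum_congr rfl fun b _ => ?_
  change ((if (1 : L ≃ₐ[ℚ] L) ∈ (e b).1 then (1 : ℤ) else -1 : ℤ) : ℚ) = eps (e b).1 1
  unfold eps
  split_ifs <;> norm_num

end Pool.Agent.Q174.D3G
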